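import Mathlib
import Pool.Agent.Q264.MNS

/-!
# Wilf's inequality for modular numerical semigroups

Proof: `x ∉ S` implies `b - x ∈ S`, and with this symmetry the pseudo-Frobenius numbers `f` of
`S = S(a, b, 1)` can be determined: `b - f` is a minimal generator of `S` or equal to `u + u'`, where
`u` and `u'` are the least positive integers with `a u ≡ 0` and `(a - 1) u' ≡ 0` modulo `b`. It
follows that the type of `S` is less than its embedding dimension, and this implies Wilf's inequality.
-/

namespace Pool.Agent.Results.MP_811154_nt.WilfModular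

/-- The modular numerical semigroup `S(a, b, 1)`. -/
def S (a b : ℕ) : Set ℕ := {x | a * x % b ≤ x}

/-- `A` is a minimal generating set of the monoid `T`. -/
def IsMinimalGeneratingSet (A T : Set ℕ) : Prop :=
  (AddSubmonoid.closure A : Set ℕ) = T ∧ ∀ B, B ⊂ A → (AddSubmonoid.closure B : Set ℕ) ≠ T

open Q264.MNS in
theorem isMin_iff (a b : ℕ) (hb : 0 < b) (A : Set ℕ) :
    IsMinimalGeneratingSet A (S a b) ↔ A = (atoms a b : Set ℕ) := by
  classical
  -- every element of the closure of a set `B ⊆ S` that is an atom lies in `B`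
  have key : ∀ B : Set ℕ, (AddSubmonoid.closure B : Set ℕ) = S a b → (atoms a b : Set ℕ) ⊆ B := by
    intro B hB x hx
    rw [Finset.mem_coe, mem_atoms hb] at hx
    have hBS : ∀ y ∈ AddSubmonoid.closure B, M a b y := by
      intro y hy
      have : y ∈ (AddSubmonoid.closure B : Set ℕ) := hy
      rw [hB] at this
      exact this
    have h1 : ∀ y ∈ AddSubmonoid.closure B, y ≠ 0 → y ∈ B ∨ ¬ Atom a b y := by
      intro y hy
      induction hy using AddSubmonoid.closure_induction with
      | mem y hy => intro _; left; exact hy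
      | zero => intro h; exact absurd rfl h
      | add y z hy hz ihy ihz =>
        intro _
        by_cases hy0 : y = 0
        · subst hy0
          rw [zero_add]
          by_cases hz0 : z = 0
          · subst hz0
            right
            intro h
            exact h.1 rfl
          · exact ihz hz0
        · by_cases hz0 : z = 0
          · subst hz0
            rw [add_zero]
            exact ihy hy0
          · right
            intro h
            exact h.2.2 y z hy0 hz0 (hBS y hy) (hBS z hz) rfl
    have h2 : x ∈ AddSubmonoid.closure B := by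
      have : x ∈ (AddSubmonoid.closure B : Set ℕ) := by
        rw [hB]
        exact hx.2.1
      exact this
    rcases h1 x h2 hx.1 with h | h
    · exact h
    · exact absurd hx h
  have gen : (AddSubmonoid.closure (atoms a b : Set ℕ) : Set ℕ) = S a b := by
    apply Set.Subset.antisymm
    · intro x hx
      have hx' : x ∈ AddSubmonoid.closure (atoms a b : Set ℕ) := hx
      induction hx' using AddSubmonoid.closure_induction with
      | mem y hy =>
        rw [Finset.mem_coe, mem_atoms hb] at hy
        exact hy.2.1
      | zero => exact M_zero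
      | add y z hy hz ihy ihz => exact M_add (ihy hy) (ihz hz)
    · intro x
      induction x using Nat.strong_induction_on with
      | _ x ih =>
        intro hx
        by_cases h0 : x = 0
        · subst h0
          exact zero_mem (AddSubmonoid.closure (atoms a b : Set ℕ))
        · by_cases hA : Atom a b x
          · exact AddSubmonoid.subset_closure ((mem_atoms hb).mpr hA)
          · have hxM : M a b x := hx
            unfold Atom at hA
            push Not at hA
            obtain ⟨y, z, hy, hz, my, mz, h⟩ := hA h0 hxM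
            rw [← h]
            exact add_mem (S := AddSubmonoid ℕ) (ih y (by omega) my) (ih z (by omega) mz)
  constructor
  · rintro ⟨h1, h2⟩
    by_contra hne
    exact h2 _ (lt_of_le_of_ne (key A h1) (fun h => hne h.symm)) gen
  · rintro rfl
    refine ⟨gen, ?_⟩
    intro B hB hcl
    exact hB.2 (key B hcl)

open Q264.MNS in
/-- **Every modular numerical semigroup satisfies Wilf's inequality.** For all positive integers
`a`, `b` the set `S = S(a, b, 1)` has a unique minimal generating set, its complement is finite and
`ℤ ∖ S` has a largest element; and if `A` is the minimal generating set, `g` the number of elements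
of the complement of `S` in `ℕ` and `F` the largest element of `ℤ ∖ S` then
`|A| g ≤ (|A| - 1) (F + 1)`. -/
theorem result (a b : ℕ) (_ha : 0 < a) (hb : 0 < b) :
    (∃! A : Set ℕ, IsMinimalGeneratingSet A (S a b)) ∧ (S a b)ᶜ.Finite ∧
    (∃ F : ℤ, IsGreatest {z : ℤ | z ∉ (fun x : ℕ => (x : ℤ)) '' S a b} F) ∧
    ∀ (A : Set ℕ) (F : ℤ), IsMinimalGeneratingSet A (S a b) →
      IsGreatest {z : ℤ | z ∉ (fun x : ℕ => (x : ℤ)) '' S a b} F →
      A.Finite ∧ (A.ncard : ℤ) * ((S a b)ᶜ.ncard : ℤ) ≤ ((A.ncard : ℤ) - 1) * (F + 1) := by
  classical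
  have hc : (S a b)ᶜ = (gaps a b : Set ℕ) := by
    ext x
    rw [Finset.mem_coe, mem_gaps hb]
    exact Iff.rfl
  -- the largest gap
  have hmem : ∀ z : ℤ, z ∉ (fun x : ℕ => (x : ℤ)) '' S a b ↔
      z < 0 ∨ ∃ x : ℕ, ¬ M a b x ∧ (x : ℤ) = z := by
    intro z
    constructor
    · intro h
      by_cases hz : z < 0
      · left; exact hz
      · right
        refine ⟨z.toNat, ?_, by omega⟩
        intro hM
        exact h ⟨z.toNat, hM, by simp only; omega⟩
    · rintro (h | ⟨x, hx, rfl⟩) ⟨y, hy, hyz⟩
      · simp only at hyz
        omega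
      · simp only [Nat.cast_inj] at hyz
        subst hyz
        exact hx hy
  refine ⟨⟨_, (isMin_iff a b hb _).mpr rfl, fun B hB => (isMin_iff a b hb B).mp hB⟩,
    by rw [hc]; exact Finset.finite_toSet _, ?_, ?_⟩
  · by_cases hne : (gaps a b).Nonempty
    · refine ⟨((gaps a b).max' hne : ℕ), ?_, ?_⟩
      · change ((((gaps a b).max' hne : ℕ)) : ℤ) ∉ (fun x : ℕ => (x : ℤ)) '' S a b
        rw [hmem]
        right
        exact ⟨_, (mem_gaps hb).mp (Finset.max'_mem _ hne), rfl⟩
      · intro z hz
        rcases (hmem z).mp hz with h | ⟨x, hx, rfl⟩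
        · have : (0 : ℤ) ≤ ((gaps a b).max' hne : ℕ) := Int.natCast_nonneg _
          omega
        · exact_mod_cast Finset.le_max' _ _ ((mem_gaps hb).mpr hx)
    · refine ⟨-1, ?_, ?_⟩
      · change (-1 : ℤ) ∉ (fun x : ℕ => (x : ℤ)) '' S a b
        rw [hmem]
        left
        norm_num
      · intro z hz
        rcases (hmem z).mp hz with h | ⟨x, hx, rfl⟩
        · omega
        · exact absurd ⟨x, (mem_gaps hb).mpr hx⟩ hne
  · intro A F hA hF
    rw [isMin_iff a b hb] at hA
    subst hA
    refine ⟨Finset.finite_toSet _, ?_⟩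
    rw [hc, Set.ncard_coe_finset, Set.ncard_coe_finset]
    have h2 := type_lt (a := a) hb
    rcases Nat.eq_zero_or_pos (gaps a b).card with h0 | h0
    · have hF1 : (-1 : ℤ) ≤ F := by
        apply hF.2
        change (-1 : ℤ) ∉ (fun x : ℕ => (x : ℤ)) '' S a b
        rw [hmem]
        left
        norm_num
      rw [h0]
      have h3 : (0 : ℤ) ≤ ((atoms a b).card : ℤ) - 1 := by
        have : 1 ≤ (atoms a b).card := by omega
        have : (1 : ℤ) ≤ ((atoms a b).card : ℤ) := by exact_mod_cast this
        linarith
      have h4 : (0 : ℤ) ≤ F + 1 := by linarith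
      have := mul_nonneg h3 h4
      simpa using this
    · obtain ⟨x, hx⟩ := Finset.card_pos.mp h0
      rw [mem_gaps hb] at hx
      have hF0 : (x : ℤ) ≤ F := hF.2 ((hmem _).mpr (Or.inr ⟨x, hx, rfl⟩))
      obtain ⟨f, hf⟩ : ∃ f : ℕ, (f : ℤ) = F := ⟨F.toNat, by omega⟩
      have h5 : ∀ y, ¬ M a b y → y ≤ f := by
        intro y hy
        have : (y : ℤ) ≤ F := hF.2 ((hmem _).mpr (Or.inr ⟨y, hy, rfl⟩))
        omega
      have h6 := wilf hb h5
      have h7 : 1 ≤ (atoms a b).card := by omega
      rw [← hf]
      have h8 : (((atoms a b).card * (gaps a b).card : ℕ) : ℤ) ≤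
          ((((atoms a b).card - 1) * (f + 1) : ℕ) : ℤ) := by exact_mod_cast h6
      push_cast [Nat.cast_sub h7] at h8
      exact h8

end Pool.Agent.Results.MP_811154_nt.WilfModular
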